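import Pool.Agent.H30.Plac

open Pool.Agent.H30.Plac

theorem Pool.Agent.Results.MP_a663df_lc.RecOrder.result :
    ∃ (L : Set ℕ) (lt : ℕ → ℕ → Prop), RecOrd L lt ∧
      ¬ ∃ f : Sys → Bool, Computable f ∧ ∀ S, Over L S → (f S = true ↔ Solv L lt S) :=
  ⟨L0, lt0, rec0, main⟩
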